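import Pool.Agent.Helper33.WF2

set_option autoImplicit false

/-!
# The flag complex inequality with Coxeter edge weights for ALL flag homology spheres, up to bad cliques

Let the flag complex of the finite graph `G` be a real homology sphere (`HSph`: all links, including the
link of the empty face, have the real homology of spheres) of dimension `2 m + 1`.  The vertices are
linearly ordered.  For cliques `S` (possibly empty) and numbers `k` let `B k S` be a set of vertices
which contains the vertices `u` of the link of `S` such that the link of `S ∪ {u}` is not in the class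
`AQ (2 k - 3)` of the starting library (`GoodFlags`; this is demanded only for `k ≥ 2` and
`k + |S| ≥ m + 2`).  The class `AQ k` consists of graphs all of whose full subcomplexes have no
`ℓ²`-homology in the degrees above `k / 2`.  A clique `R` with `i` elements in the link of a clique `T`
is bad with respect to `T` if for each initial segment `Q` of `R` with at least two elements missing, all
elements of `R \ Q` are in `B (i - |Q|) (T ∪ Q)`.  There is no condition on the sets `B k S`.

The numbers `N σ` are the orders of the Coxeter groups `W_σ`, or any numbers with the properties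
(1)-(5) below, as in the starting results.
-/

namespace Pool.Agent.Results.MP_375bfa_co.BadCliques

open Pool.Agent.W497.FS (cl)
open Pool.Agent.TH652.Above (HSph)
open Pool.Agent.Helper33.BF

/-- Let `w e ≥ 2` be weights of the edges and let `N σ` be rational numbers such that (1) `N ∅ = 1`,
(2) `N {v} = 2`, (3) `N e = 2 w e` for each edge `e`, (4) `N (A ∪ B) = N A * N B` if `A ∪ B` is a face and
all edges between `A` and `B` have weight `2`, (5) for each face `T` with at least three vertices which is
connected by edges of weight at least `3`, the sum `b T` of the `(-1/2)^|T \ U| / N U`, `U ⊆ T`, is zero if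
`|T|` is odd and has the sign `(-1)^j`, or is zero, if `|T| = 2 j`.  Then
`(-1)^(m+1) ∑ (-1)^|σ| / N σ ≥ - ∑_T |b T| * 2 * (f_{l+2}(T) / 2^(l+2) + f_{l+4}(T) / 2^(l+4) + ...)`,
where `T` runs through the faces with an even number `|T| ≤ 2 m` of vertices, `l = m - |T| / 2`, and
`f_i(T)` is the number of the cliques with `i` elements in the link of `T` which are bad with respect to
`T`. -/
theorem result (m : ℕ) (V : Type) [Fintype V] [LinearOrder V] (G : SimpleGraph V)
    (hS : HSph (2 * m + 2) G) (B : ℕ → Finset V → Set V) (hB : GoodFlags G B (m + 2))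
    (w : Finset V → ℕ) (hw : ∀ e ∈ cl G Finset.univ, e.card = 2 → 2 ≤ w e)
    (N : Finset V → ℚ) (h0 : N ∅ = 1) (h1 : ∀ v, {v} ∈ cl G Finset.univ → N {v} = 2)
    (h2 : ∀ e ∈ cl G Finset.univ, e.card = 2 → N e = 2 * w e)
    (hmul : ∀ A A' : Finset V, Disjoint A A' → A ∪ A' ∈ cl G Finset.univ →
      (∀ a ∈ A, ∀ b ∈ A', w {a, b} = 2) → N (A ∪ A') = N A * N A')
    (hsign : ∀ T ∈ cl G Finset.univ, 3 ≤ T.card →
      (∀ A ⊆ T, A.Nonempty → A ≠ T → ∃ a ∈ A, ∃ b ∈ T, b ∉ A ∧ w {a, b} ≠ 2) →
      (Odd T.card → ∑ U ∈ T.powerset, (-1 / 2) ^ (T.card - U.card) / N U = 0) ∧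
      ∀ j, T.card = 2 * j →
        0 ≤ (-1) ^ j * ∑ U ∈ T.powerset, (-1 / 2) ^ (T.card - U.card) / N U) :
    - (∑ T ∈ (cl G Finset.univ).filter (fun T => Even T.card ∧ T.card ≤ 2 * m),
        |∑ U ∈ T.powerset, (-1 / 2) ^ (T.card - U.card) / N U| *
          (2 * linkEven G B T (m - T.card / 2))) ≤
      (-1) ^ (m + 1) * ∑ σ ∈ cl G Finset.univ, (-1) ^ σ.card / N σ :=
  weighted_flags G m hS B hB N (Y365.FS.goodOrders_of
    (fun _ hF _ hG => Pool.Agent.W497.FS.cl_of_subset hF hG) w hw N h0 h1 h2 hmul hsign)

end Pool.Agent.Results.MP_375bfa_co.BadCliques
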