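import Pool.Agent.V11177.CW.Main

set_option autoImplicit false

/-!
# The flag complex inequality with Coxeter edge weights, for a class closed under gluing and
inverse edge contractions

The class `Cls` (defined in `Pool.Agent.TH709.GG.ClsDef`) is built from the flag Eulerian complexes
of rank at most three and those of rank four with `f₁ - 5 f₀ + 16 ≥ 0` by isomorphic copies, links,
joins, gluing along vertex links, inverse contractions of edges in no induced 4-cycle, edge
subdivisions, and a local rule.  The numbers `N σ` are the orders of the Coxeter groups `W_σ`, or any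
numbers with the properties (1)-(5) below.
-/

namespace Pool.Agent.Results.MP_375bfa_co.CoxeterGluing

open Pool.Agent.W497.FS Pool.Agent.TH709.GG

/-- Let `S` be a flag homology `(2 m - 1)`-sphere each of whose join factors `C`, of dimension
`e - 1` say, has dimension at most two, or at most `max (2 e + 6) (3 e)` vertices, or belongs to the
class `Cls`.  Let `w e ≥ 2` be weights of the edges and let `N σ` be rational numbers such that
(1) `N ∅ = 1`, (2) `N {v} = 2`, (3) `N e = 2 w e` for each edge `e`, (4) `N (A ∪ B) = N A * N B` if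
`A ∪ B` is a face and all edges between `A` and `B` have weight `2`, (5) for each face `T` with at
least three vertices which is connected by edges of weight at least `3`, the sum `b T` of the
`(-1/2)^|T \ U| / N U`, `U ⊆ T`, is zero if `|T|` is odd and has the sign `(-1)^j`, or is zero, if
`|T| = 2 j`.  Then `(-1)^m ∑ (-1)^|σ| / N σ ≥ 0`.  The second part is the same inequality for all
flag complexes in the class `Cls`, spheres or not. -/
theorem result :
    (∀ (k : Type) [Field k] (n m : ℕ) (S : Finset (Finset (Fin n))) (_ : IsFlagSphere k (2 * m) S)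
      (_ : ∀ C : Finset (Fin n), IsFactor S C → (∀ F ∈ S, F ⊆ C → F.card ≤ 3) ∨
        (∃ F ∈ S, F ⊆ C ∧ C.card ≤ max (2 * F.card + 6) (3 * F.card)) ∨
        ∃ F ∈ S, F ⊆ C ∧ Cls F.card (Fin n) (skel S) C)
      (w : Finset (Fin n) → ℕ) (_ : ∀ e ∈ S, e.card = 2 → 2 ≤ w e)
      (N : Finset (Fin n) → ℚ) (_ : N ∅ = 1) (_ : ∀ v, {v} ∈ S → N {v} = 2)
      (_ : ∀ e ∈ S, e.card = 2 → N e = 2 * w e)
      (_ : ∀ A B : Finset (Fin n), Disjoint A B → A ∪ B ∈ S →
        (∀ a ∈ A, ∀ b ∈ B, w {a, b} = 2) → N (A ∪ B) = N A * N B)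
      (_ : ∀ T ∈ S, 3 ≤ T.card →
        (∀ A ⊆ T, A.Nonempty → A ≠ T → ∃ a ∈ A, ∃ b ∈ T, b ∉ A ∧ w {a, b} ≠ 2) →
        (Odd T.card → ∑ U ∈ T.powerset, (-1 / 2) ^ (T.card - U.card) / N U = 0) ∧
        ∀ j, T.card = 2 * j →
          0 ≤ (-1) ^ j * ∑ U ∈ T.powerset, (-1 / 2) ^ (T.card - U.card) / N U),
      0 ≤ (-1) ^ m * ∑ σ ∈ S, (-1) ^ σ.card / N σ) ∧
    (∀ (α : Type) [DecidableEq α] (H : SimpleGraph α) (m : ℕ) (W : Finset α)
      (_ : Cls (2 * m) α H W)
      (w : Finset α → ℕ) (_ : ∀ e ∈ cl H W, e.card = 2 → 2 ≤ w e)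
      (N : Finset α → ℚ) (_ : N ∅ = 1) (_ : ∀ v, {v} ∈ cl H W → N {v} = 2)
      (_ : ∀ e ∈ cl H W, e.card = 2 → N e = 2 * w e)
      (_ : ∀ A B : Finset α, Disjoint A B → A ∪ B ∈ cl H W →
        (∀ a ∈ A, ∀ b ∈ B, w {a, b} = 2) → N (A ∪ B) = N A * N B)
      (_ : ∀ T ∈ cl H W, 3 ≤ T.card →
        (∀ A ⊆ T, A.Nonempty → A ≠ T → ∃ a ∈ A, ∃ b ∈ T, b ∉ A ∧ w {a, b} ≠ 2) →
        (Odd T.card → ∑ U ∈ T.powerset, (-1 / 2) ^ (T.card - U.card) / N U = 0) ∧
        ∀ j, T.card = 2 * j →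
          0 ≤ (-1) ^ j * ∑ U ∈ T.powerset, (-1 / 2) ^ (T.card - U.card) / N U),
      0 ≤ (-1) ^ m * ∑ σ ∈ cl H W, (-1) ^ σ.card / N σ) := by
  refine ⟨?_, ?_⟩
  · intro k _ n m S hS hC w hw N h0 h1 h2 hmul hsign
    have hsub : ∀ F ∈ S, ∀ G ⊆ F, G ∈ S := by
      obtain ⟨r, hr⟩ := hS
      exact fun F hF G hG => hr.1 F hF G hG
    exact V11177.CW.weighted_sphere hS hC (Y365.FS.goodOrders_of hsub w hw N h0 h1 h2 hmul hsign)
  · intro α _ H m W hW w hw N h0 h1 h2 hmul hsign
    exact V11177.CW.weighted_cls hW (Y365.FS.goodOrders_of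
      (fun F hF G hG => cl_of_subset hF hG) w hw N h0 h1 h2 hmul hsign)

end Pool.Agent.Results.MP_375bfa_co.CoxeterGluing
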